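import Mathlib

/-!
The Neumann-Poincare operator of a smooth bounded domain, its singular values and Schatten norms.
-/

open MeasureTheory
open scoped ENNReal ContDiff

namespace Pool.Agent.MP_ec20d8_an

section Operators

variable {H : Type*} [NormedAddCommGroup H] [NormedSpace ℝ H]

/-- The singular values `s_0 ≥ s_1 ≥ ⋯`: `s_j` is the distance in operator norm to the operators
of rank at most `j`. -/
noncomputable def singularValue (K : H →L[ℝ] H) (j : ℕ) : ℝ :=
  sInf {t : ℝ | ∃ F : H →L[ℝ] H, LinearMap.rank F.toLinearMap ≤ j ∧ t = ‖K - F‖}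

/-- The `p`-th power of the Schatten norm, `∑ s_j ^ p`. -/
noncomputable def schattenPow (K : H →L[ℝ] H) (p : ℝ) : ℝ≥0∞ :=
  ∑' j : ℕ, ENNReal.ofReal (singularValue K j ^ p)

/-- There is a bounded operator `K` with `P φ (K φ)` for all `φ` and `∑ s_j(K) ^ p = t`. -/
def SchattenPowOf (P : H → H → Prop) (p : ℝ) (t : ℝ≥0∞) : Prop :=
  ∃ K : H →L[ℝ] H, (∀ φ, P φ (K φ)) ∧ schattenPow K p = t

variable {X : Type*} [MeasurableSpace X]

/-- The real Hilbert space `L²(σ)`. -/
noncomputable abbrev L2 (σ : Measure X) : Type _ := Lp ℝ 2 σ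

/-- The kernel `k` defines a bounded integral operator `φ ↦ ψ` on `L²(σ)`, and `t` is the `p`-th
power of its Schatten `p`-norm. -/
def HasSchattenPow (σ : Measure X) (k : X → X → ℝ) (p : ℝ) (t : ℝ≥0∞) : Prop :=
  SchattenPowOf (fun φ ψ : L2 σ => ∀ᵐ x ∂σ, ψ x = ∫ y, k x y * φ y ∂σ) p t

end Operators

section Geometry

variable {V : Type*} [NormedAddCommGroup V] [InnerProductSpace ℝ V] [CompleteSpace V]

/-- `ρ` is a smooth defining function of `Ω`: the boundary of `Ω` is the smooth closed surface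
`ρ = 0`, and `Ω` is the side `ρ < 0`. -/
structure IsDefiningFunction (Ω : Set V) (ρ : V → ℝ) : Prop where
  smooth : ContDiff ℝ ∞ ρ
  eq_neg : Ω = {x | ρ x < 0}
  gradient_ne : ∀ x, ρ x = 0 → gradient ρ x ≠ 0

/-- The outward unit normal at the points of the boundary. -/
noncomputable def unitNormal (ρ : V → ℝ) (x : V) : V := ‖gradient ρ x‖⁻¹ • gradient ρ x

/-- The Neumann-Poincare kernel `⟨y - x, ν_y⟩ / (4 π |x - y|³)`. -/
noncomputable def npKernel (ρ : V → ℝ) (x y : V) : ℝ :=
  inner ℝ (y - x) (unitNormal ρ y) / (4 * Real.pi * ‖x - y‖ ^ 3)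

/-- The surface measure: normalised two-dimensional Hausdorff measure on the boundary. -/
noncomputable def surfaceMeasure {V : Type*} [NormedAddCommGroup V] [MeasurableSpace V]
    [BorelSpace V] (Ω : Set V) : Measure V :=
  (Measure.euclideanHausdorffMeasure 2).restrict (frontier Ω)

end Geometry

/-- The value on a round sphere, `∑ (2k+1) (1 / (2 (2k+1))) ^ p`. -/
noncomputable def sphereValue (p : ℝ) : ℝ≥0∞ :=
  ∑' k : ℕ, ENNReal.ofReal ((2 * k + 1) * (1 / (2 * (2 * k + 1))) ^ p)

end Pool.Agent.MP_ec20d8_an
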